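import Pool.Agent.H103.RelDav.Main

/-!
Relative Davenport constants of finite abelian groups of exponent dividing `p * q`.
-/

namespace H87RelPQ

open Finset H103RelDav

lemma kaut {K V : Type*} [Field K] [AddCommGroup V] [Module K V] {v w : V}
    (hv : v ≠ 0) (hw : w ≠ 0) : ∃ φ : V ≃ₗ[K] V, φ v = w := by
  let f := (LinearEquiv.toSpanNonzeroSingleton K V v hv).symm.trans
    (LinearEquiv.toSpanNonzeroSingleton K V w hw)
  obtain ⟨g, hg⟩ := Submodule.exists_linearEquiv_restrict_eq f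
  refine ⟨g, ?_⟩
  have h1 := hg ⟨v, Submodule.mem_span_singleton_self v⟩
  have h2 : f ⟨v, Submodule.mem_span_singleton_self v⟩ =
      ⟨w, Submodule.mem_span_singleton_self w⟩ := by
    have h3 : (LinearEquiv.toSpanNonzeroSingleton K V v hv).symm
        ⟨v, Submodule.mem_span_singleton_self v⟩ = 1 := LinearEquiv.coord_self K V v hv
    show (LinearEquiv.toSpanNonzeroSingleton K V w hw)
      ((LinearEquiv.toSpanNonzeroSingleton K V v hv).symm _) = _
    rw [h3]
    exact LinearEquiv.toSpanNonzeroSingleton_one K V w hw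
  rw [h2] at h1
  exact h1.symm

lemma vaut {V : Type*} [AddCommGroup V] {p : ℕ} (hp : p.Prime) (h : ∀ x : V, p • x = 0) {v w : V}
    (hv : v ≠ 0) (hw : w ≠ 0) : ∃ φ : V ≃+ V, φ v = w := by
  have : Fact p.Prime := ⟨hp⟩
  let inst : Module (ZMod p) V := AddCommGroup.zmodModule h
  obtain ⟨g, hg⟩ := kaut (K := ZMod p) hv hw
  exact ⟨g.toAddEquiv, hg⟩

variable {G : Type*} [AddCommGroup G]

lemma cop {p q : ℕ} (h : Nat.Coprime p q) {x : G} (h1 : p • x = 0) (h2 : q • x = 0) : x = 0 := by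
  obtain ⟨u, v, huv⟩ := Nat.isCoprime_iff_coprime.2 h
  have : ((u * p + v * q : ℤ)) • x = 0 := by
    rw [add_smul, mul_smul, mul_smul, natCast_zsmul, natCast_zsmul, h1, h2, smul_zero, smul_zero,
      add_zero]
  rwa [huv, one_smul] at this

lemma step {p m : ℕ} (hp : p.Prime) (hpm : Nat.Coprime p m) (hG : ∀ x : G, (p * m) • x = 0)
    (a c : G) (hac : m • a = 0 ↔ m • c = 0) :
    ∃ φ : G →+ G, Function.Injective φ ∧ m • φ a = m • c ∧ p • φ a = p • a := by
  by_cases ha : m • a = 0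
  · exact ⟨AddMonoidHom.id G, Function.injective_id, by simp [ha, hac.1 ha], rfl⟩
  have hc : m • c ≠ 0 := fun h => ha (hac.2 h)
  obtain ⟨u, v, huv⟩ := Nat.isCoprime_iff_coprime.2 hpm
  have hpm0 : ∀ x : G, ((p : ℤ) * m) • x = 0 := fun x => by
    have := hG x
    rw [← natCast_zsmul] at this
    push_cast at this
    exact this
  let V : AddSubgroup G := (zsmulAddGroupHom (p : ℤ) : G →+ G).ker
  have memV : ∀ x : G, (v * m) • x ∈ V := by
    intro x
    show (p : ℤ) • ((v * m) • x) = 0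
    rw [smul_smul, show (p : ℤ) * (v * m) = v * (p * m) by ring, mul_smul, hpm0, smul_zero]
  let π : G →+ V := (zsmulAddGroupHom (v * m : ℤ) : G →+ G).codRestrict V memV
  have hπ : ∀ x, ((π x : V) : G) = (v * m) • x := fun x => rfl
  have hV : ∀ x : V, p • x = 0 := by
    intro x
    apply Subtype.ext
    have : (p : ℤ) • (x : G) = 0 := x.2
    rw [natCast_zsmul] at this
    simpa using this
  have hM : ∀ x : G, m • ((u * p) • x) = 0 := by
    intro x
    rw [← natCast_zsmul, smul_smul, show (m : ℤ) * (u * p) = u * (p * m) by ring, mul_smul, hpm0,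
      smul_zero]
  have hsplit : ∀ x : G, x = (v * m) • x + (u * p) • x := by
    intro x
    rw [← add_smul, add_comm, huv, one_smul]
  have hmx : ∀ x : G, m • x = m • ((v * m) • x) := by
    intro x
    conv_lhs => rw [hsplit x]
    rw [smul_add, hM, add_zero]
  have hpa : π a ≠ 0 := by
    intro h
    apply ha
    rw [hmx, ← hπ, h]; simp
  have hpc : π c ≠ 0 := by
    intro h
    apply hc
    rw [hmx, ← hπ, h]; simp
  obtain ⟨ψ, hψ⟩ := vaut hp hV hpa hpc
  let φ : G →+ G := V.subtype.comp (ψ.toAddMonoidHom.comp π) + zsmulAddGroupHom (u * p : ℤ)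
  have hφ : ∀ x, φ x = ((ψ (π x) : V) : G) + (u * p) • x := fun x => rfl
  have hpV : ∀ y : V, p • (y : G) = 0 := fun y => by
    have := congrArg (Subtype.val) (hV y)
    simpa using this
  refine ⟨φ, ?_, ?_, ?_⟩
  · rw [injective_iff_map_eq_zero]
    intro x hx
    rw [hφ] at hx
    have h1 : m • ((ψ (π x) : V) : G) = 0 := by
      have := congrArg (fun z => m • z) hx
      simpa [smul_add, hM] using this
    have h2 : ((ψ (π x) : V) : G) = 0 := cop hpm (hpV _) h1
    have h3 : π x = 0 := by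
      have : ψ (π x) = 0 := Subtype.ext h2
      exact (AddEquiv.map_eq_zero_iff ψ).1 this
    rw [h2, zero_add] at hx
    have h4 : (v * m) • x = 0 := by rw [← hπ, h3]; rfl
    rw [hsplit x, h4, hx, add_zero]
  · rw [hφ, hψ, smul_add, hM, add_zero, hπ, ← hmx]
  · rw [hφ, smul_add, hpV, zero_add]
    conv_rhs => rw [hsplit a]
    rw [smul_add]
    have : p • ((v * m) • a) = 0 := hpV ⟨_, memV a⟩
    rw [this, zero_add]

lemma autom {p q : ℕ} (hp : p.Prime) (hq : q.Prime) (hpq : p ≠ q)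
    (hG : ∀ x : G, (p * q) • x = 0) (a b : G) (h1 : p • a = 0 ↔ p • b = 0)
    (h2 : q • a = 0 ↔ q • b = 0) : ∃ φ : G →+ G, Function.Injective φ ∧ φ a = b := by
  have hc : Nat.Coprime p q := (Nat.coprime_primes hp hq).2 hpq
  obtain ⟨φ, i1, e1, e2⟩ := step hp hc hG a b h2
  obtain ⟨χ, i2, e3, e4⟩ := step hq hc.symm (fun x => by rw [mul_comm]; exact hG x) (φ a) b
    (by rw [e2]; exact h1)
  refine ⟨χ.comp φ, i2.comp i1, ?_⟩
  have h3 : p • (χ (φ a) - b) = 0 := by rw [smul_sub, e3, sub_self]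
  have h4 : q • (χ (φ a) - b) = 0 := by rw [smul_sub, e4, e1, sub_self]
  exact sub_eq_zero.1 (cop hc h3 h4)

lemma card_bound [Finite G] {n : ℕ} {f : Fin n → G} (hf : ZSF f) : n ≤ Nat.card G := by
  have key : ∀ a b : Fin n, a < b → ∑ i ∈ Finset.Iic a, f i ≠ ∑ i ∈ Finset.Iic b, f i := by
    intro a b h hab
    have hsub : Finset.Iic a ⊆ Finset.Iic b := Finset.Iic_subset_Iic.2 h.le
    have h1 := Finset.sum_sdiff hsub (f := f)
    rw [hab] at h1
    have h0 : ∑ i ∈ Finset.Iic b \ Finset.Iic a, f i = 0 := by simpa using h1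
    exact hf _ ⟨b, by simp [h]⟩ h0
  have inj : Function.Injective (fun j : Fin n => ∑ i ∈ Finset.Iic j, f i) := by
    intro a b hab
    by_contra hne
    rcases lt_or_gt_of_ne hne with h | h
    · exact key a b h hab
    · exact key b a h hab.symm
  simpa using Nat.card_le_card_of_injective _ inj

lemma bdd [Finite G] (S : Set G) : BddAbove {n : ℕ | ∃ f : Fin n → G, (∑ i, f i) ∈ S ∧
    ∀ A : Finset (Fin n), A.Nonempty → ∑ i ∈ A, f i ≠ 0} :=
  ⟨Nat.card G, fun _ ⟨_, _, hf⟩ => card_bound hf⟩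

lemma le_dRel [Finite G] {S : Set G} {n : ℕ} (f : Fin n → G) (hs : ∑ i, f i ∈ S) (hf : ZSF f) :
    n ≤ dRel S := le_csSup (bdd S) ⟨f, hs, hf⟩

lemma extend {D : ℕ} {p q : ℕ} (hc : Nat.Coprime p q) (f : Fin D → G) (hf : ZSF f)
    (h : ∀ i, p • f i = 0) (y : G) (hy : y ≠ 0) (hqy : q • y = 0) :
    ∃ f' : Fin (D + 1) → G, ZSF f' := by
  have h1 : ZSF (Sum.elim (fun _ : Unit => y) f) := by
    refine ZSF.sumElim (nsmulAddMonoidHom p : G →+ G) ?_ hf (fun x => h x)
    intro A hA h0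
    have hA' : A = {()} := by
      ext x; cases x; simp only [mem_singleton, iff_true]
      obtain ⟨z, hz⟩ := hA
      cases z; exact hz
    rw [hA', Finset.sum_singleton] at h0
    exact hy (cop hc h0 hqy)
  have h2 := mem_of_family (S := Set.univ) _ h1 (Set.mem_univ _)
  rw [Fintype.card_sum, Fintype.card_unit, Fintype.card_fin, add_comm] at h2
  obtain ⟨f', _, hf'⟩ := h2
  exact ⟨f', hf'⟩

lemma full_sum {D : ℕ} {p q : ℕ} (hc : Nat.Coprime p q) (hG : ∀ x : G, (p * q) • x = 0)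
    (hD : ∃ f : Fin D → G, ZSF f) (hmax : ∀ n, (∃ f : Fin n → G, ZSF f) → n ≤ D) (a₀ : G)
    (h1 : p • a₀ ≠ 0) (h2 : q • a₀ ≠ 0) :
    ∃ f : Fin D → G, ZSF f ∧ p • ∑ i, f i ≠ 0 ∧ q • ∑ i, f i ≠ 0 := by
  classical
  obtain ⟨f, hf⟩ := hD
  by_cases hs : p • ∑ i, f i ≠ 0 ∧ q • ∑ i, f i ≠ 0
  · exact ⟨f, hf, hs⟩
  by_cases hx : ∃ x, p • f x ≠ 0 ∧ q • f x ≠ 0
  · obtain ⟨x, hx1, hx2⟩ := hx
    obtain ⟨f', hf', hs'⟩ := swap_in hf x (-(f x)) (by simp)
    refine ⟨f', hf', ?_, ?_⟩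
    · rw [hs', smul_neg]; simpa using hx1
    · rw [hs', smul_neg]; simpa using hx2
  exfalso
  have hx' : ∀ x, p • f x ≠ 0 → q • f x = 0 := fun x h => by
    by_contra h'
    exact hx ⟨x, h, h'⟩
  set A := univ.filter (fun x => p • f x = 0) with hA
  have hA1 : p • ∑ x ∈ A, f x = 0 := by
    rw [Finset.smul_sum]
    exact Finset.sum_eq_zero fun x hx => (Finset.mem_filter.1 hx).2
  have hA2 : q • ∑ x ∈ Aᶜ, f x = 0 := by
    rw [Finset.smul_sum]
    refine Finset.sum_eq_zero fun x hx => hx' x ?_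
    intro h
    exact (Finset.mem_compl.1 hx) (Finset.mem_filter.2 ⟨mem_univ _, h⟩)
  have hsum : ∑ x ∈ A, f x + ∑ x ∈ Aᶜ, f x = ∑ x, f x := Finset.sum_add_sum_compl A f
  by_cases hps : p • ∑ i, f i = 0
  · have h3 : p • ∑ x ∈ Aᶜ, f x = 0 := by
      rw [← hsum, smul_add, hA1, zero_add] at hps
      exact hps
    have h4 := cop hc h3 hA2
    have h5 : ∀ x, p • f x = 0 := by
      intro x
      by_contra hxx
      refine hf Aᶜ ⟨x, Finset.mem_compl.2 fun h => hxx (Finset.mem_filter.1 h).2⟩ h4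
    obtain ⟨f', hf'⟩ := extend hc f hf h5 (p • a₀) h1 (by
      rw [smul_smul, mul_comm]; exact hG a₀)
    have := hmax _ ⟨f', hf'⟩
    omega
  · have hqs : q • ∑ i, f i = 0 := by
      by_contra h
      exact hs ⟨hps, h⟩
    have h3 : q • ∑ x ∈ A, f x = 0 := by
      rw [← hsum, smul_add, hA2, add_zero] at hqs
      exact hqs
    have h4 := cop hc hA1 h3
    have h5 : ∀ x, q • f x = 0 := by
      intro x
      apply hx'
      intro hxx
      exact hf A ⟨x, Finset.mem_filter.2 ⟨mem_univ _, hxx⟩⟩ h4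
    obtain ⟨f', hf'⟩ := extend hc.symm f hf h5 (q • a₀) h2 (by
      rw [smul_smul]; exact hG a₀)
    have := hmax _ ⟨f', hf'⟩
    omega

lemma exists_rep' (H : AddSubgroup G) (α : G ⧸ H) : ∃ a, a ∈ cosetSet H α := by
  obtain ⟨a, ha⟩ := QuotientAddGroup.mk_surjective α
  exact ⟨a, ha⟩

lemma single [Finite G] {p q : ℕ} (hp : p.Prime) (hq : q.Prime) (hpq : p ≠ q)
    (hG : ∀ x : G, (p * q) • x = 0) (H : AddSubgroup G) (α β : G ⧸ H)
    (hβ : β ∈ AddSubgroup.zmultiples α) (hα : ∀ a ∈ cosetSet H α, q • a = 0) :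
    dRel (cosetSet H β) ≤ dRel (cosetSet H α) := by
  have hc : Nat.Coprime p q := (Nat.coprime_primes hp hq).2 hpq
  obtain ⟨k, hk⟩ := AddSubgroup.mem_zmultiples_iff.1 hβ
  obtain ⟨a, ha⟩ := exists_rep' H α
  have ha' : (QuotientAddGroup.mk a : G ⧸ H) = α := ha
  have hH : ∀ h ∈ H, q • h = 0 := by
    intro h hh
    have h1 : a + h ∈ cosetSet H α := by
      show (QuotientAddGroup.mk (a + h) : G ⧸ H) = α
      rw [QuotientAddGroup.mk_add, ha', (QuotientAddGroup.eq_zero_iff h).2 hh, add_zero]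
    have h2 := hα _ h1
    rw [smul_add, hα a ha, zero_add] at h2
    exact h2
  refine csSup_le' ?_
  rintro n ⟨f, hs, hf⟩
  rcases Nat.eq_zero_or_pos n with rfl | hn
  · exact Nat.zero_le _
  set b := ∑ i, f i with hb
  have hb0 : b ≠ 0 := hf univ ⟨⟨0, hn⟩, mem_univ _⟩
  have hs' : (QuotientAddGroup.mk b : G ⧸ H) = β := hs
  have hqb : q • b = 0 := by
    have h1 : b - k • a ∈ H := by
      rw [← QuotientAddGroup.eq_zero_iff, QuotientAddGroup.mk_sub, QuotientAddGroup.mk_zsmul, hs',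
        ha', hk, sub_self]
    have h2 := hH _ h1
    have h3 : q • (k • a) = 0 := by rw [smul_comm, hα a ha, smul_zero]
    rw [smul_sub, h3, sub_zero] at h2
    exact h2
  obtain ⟨a', ha'1, ha'0⟩ : ∃ a' ∈ cosetSet H α, a' ≠ 0 := by
    by_cases h0 : a = 0
    · refine ⟨b, ?_, hb0⟩
      show (QuotientAddGroup.mk b : G ⧸ H) = α
      have : α = 0 := by rw [← ha', h0]; rfl
      rw [hs', ← hk, this, smul_zero]
    · exact ⟨a, ha, h0⟩
  have hqa' := hα a' ha'1
  obtain ⟨φ, hi, he⟩ := autom hp hq hpq hG b a'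
    (by
      constructor
      · intro h; exact absurd (cop hc h hqb) hb0
      · intro h; exact absurd (cop hc h hqa') ha'0)
    (by simp [hqb, hqa'])
  refine le_dRel (fun i => φ (f i)) ?_ (ZSF.map φ hi hf)
  rw [← map_sum, ← hb, he]
  exact ha'1

lemma dRel_mono [Finite G] {S T : Set G} (h : S ⊆ T) : dRel S ≤ dRel T := by
  refine csSup_le' ?_
  rintro n ⟨f, hs, hf⟩
  exact le_dRel f (h hs) hf

/-- A set containing an element of order `p * q` has the largest possible constant. -/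
theorem full_set [Finite G] {p q : ℕ} (hp : p.Prime) (hq : q.Prime) (hpq : p ≠ q)
    (hG : ∀ x : G, (p * q) • x = 0) (S : Set G) (a : G) (ha : a ∈ S) (h1 : p • a ≠ 0)
    (h2 : q • a ≠ 0) : dRel S = dRel (Set.univ : Set G) := by
  have hc : Nat.Coprime p q := (Nat.coprime_primes hp hq).2 hpq
  refine le_antisymm (dRel_mono (Set.subset_univ _)) ?_
  obtain ⟨D, hD, hmax⟩ : ∃ D, (∃ f : Fin D → G, ZSF f) ∧
      ∀ n, (∃ f : Fin n → G, ZSF f) → n ≤ D := by
    have hb : BddAbove {n : ℕ | ∃ f : Fin n → G, ZSF f} :=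
      ⟨Nat.card G, fun _ ⟨_, hf⟩ => card_bound hf⟩
    have hne : {n : ℕ | ∃ f : Fin n → G, ZSF f}.Nonempty :=
      ⟨0, fun i => i.elim0, fun A hA => by obtain ⟨x, _⟩ := hA; exact x.elim0⟩
    exact ⟨_, Nat.sSup_mem hne hb, fun n hn => le_csSup hb hn⟩
  obtain ⟨f, hf, f1, f2⟩ := full_sum hc hG hD hmax a h1 h2
  obtain ⟨φ, hi, he⟩ := autom hp hq hpq hG (∑ i, f i) a (by simp [f1, h1]) (by simp [f2, h2])
  have h3 : D ≤ dRel S := by
    refine le_dRel (fun i => φ (f i)) ?_ (ZSF.map φ hi hf)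
    rw [← map_sum, he]
    exact ha
  refine le_trans (csSup_le' ?_) h3
  rintro n ⟨g, _, hg⟩
  exact hmax n ⟨g, hg⟩

theorem main [Finite G] {p q : ℕ} (hp : p.Prime) (hq : q.Prime) (hpq : p ≠ q)
    (hG : ∀ x : G, (p * q) • x = 0) (H : AddSubgroup G) (α β : G ⧸ H)
    (hβ : β ∈ AddSubgroup.zmultiples α) :
    dRel (cosetSet H β) ≤ dRel (cosetSet H α) := by
  classical
  have hc : Nat.Coprime p q := (Nat.coprime_primes hp hq).2 hpq
  by_cases hfull : ∃ a ∈ cosetSet H α, p • a ≠ 0 ∧ q • a ≠ 0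
  · obtain ⟨a, ha, h1, h2⟩ := hfull
    rw [full_set hp hq hpq hG (cosetSet H α) a ha h1 h2]
    exact dRel_mono (Set.subset_univ _)
  · have hno : ∀ a ∈ cosetSet H α, p • a ≠ 0 → q • a = 0 := fun a ha h => by
      by_contra h'
      exact hfull ⟨a, ha, h, h'⟩
    by_cases hP : ∀ a ∈ cosetSet H α, p • a = 0
    · exact single hq hp hpq.symm (fun x => by rw [mul_comm]; exact hG x) H α β hβ hP
    · push Not at hP
      obtain ⟨a, ha, hpa⟩ := hP
      have hqa := hno a ha hpa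
      refine single hp hq hpq hG H α β hβ ?_
      intro a' ha'
      by_contra hqa'
      have hpa' : p • a' = 0 := by
        by_contra h
        exact hqa' (hno a' ha' h)
      obtain ⟨u, v, huv⟩ := Nat.isCoprime_iff_coprime.2 hc
      have hd : a' - a ∈ H := by
        rw [← QuotientAddGroup.eq_zero_iff, QuotientAddGroup.mk_sub,
          show (QuotientAddGroup.mk a' : G ⧸ H) = α from ha',
          show (QuotientAddGroup.mk a : G ⧸ H) = α from ha, sub_self]
      have he : (v * q) • (a' - a) = a' := by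
        have e1 : (v * q) • a = 0 := by rw [mul_smul, natCast_zsmul, hqa, smul_zero]
        have e2 : (v * q) • a' = a' := by
          have : (v * q) • a' = (u * p + v * q) • a' := by
            rw [add_smul, mul_smul u, natCast_zsmul, hpa', smul_zero, zero_add]
          rw [this, huv, one_smul]
        rw [smul_sub, e1, e2, sub_zero]
      have hmem : a + a' ∈ cosetSet H α := by
        show (QuotientAddGroup.mk (a + a') : G ⧸ H) = α
        have h5 : a' ∈ H := by rw [← he]; exact H.zsmul_mem hd _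
        rw [QuotientAddGroup.mk_add, (QuotientAddGroup.eq_zero_iff a').2 h5, add_zero]
        exact ha
      refine hfull ⟨a + a', hmem, ?_, ?_⟩
      · rw [smul_add, hpa', add_zero]; exact hpa
      · rw [smul_add, hqa, zero_add]; exact hqa'

end H87RelPQ
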